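import Pool.Agent.Lib.MP_10b896_lc.Main

/-! Q1 has the answer yes. There is a countable Borel equivalence relation `E` which is Borel
isomorphic to its continuum multiple and is not universally structurable; it is not even Borel
bireducible with a universally structurable relation.

The example is the continuum multiple of the orbit relation of `SL(2, ℤ)` acting by left
translation on the product of the groups `SL(2, ℤ/n)`. -/

namespace Pool.Agent.Results.MP_10b896_lc.NotUnivStructurable

open Pool.Agent.Lib.MP_10b896_lc

/-- Sanity check of the definitions (not the result): the class of universally structurable
relations contains a relation on a nonempty space. -/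
theorem sanity_check : ∃ E : CBER, Nonempty E.X ∧ UnivStructurable E := sanity

theorem result : ∃ E : CBER, BorelIso (timesR E) E ∧ ¬ UnivStructurable E ∧
    ∀ E' : CBER, Reduces E E' → Reduces E' E → ¬ UnivStructurable E' := by
  obtain ⟨E, h1, h2⟩ := main
  exact ⟨E, h1, h2 E (Reduces.refl E) (Reduces.refl E), h2⟩

end Pool.Agent.Results.MP_10b896_lc.NotUnivStructurable
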